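import Pool.Agent.D0H67.TS.Stm
import Pool.Agent.D0H9.CX.Powm

/-! # TS: POWN (after helper9's module Powm) -/

set_option autoImplicit false
set_option linter.unusedSectionVars false
set_option linter.unusedVariables false

namespace Pool.Agent.D0H22.TS

open MvPolynomial Pool.Agent.W428.MOT Pool.Agent.TH192.MT Pool.Agent.TH192.DT
  Pool.Agent.D0H67.SUB Pool.Agent.D0H67.SUB.Lev Pool.Agent.D0H67.SUB.Shift
open Pool.Agent.D0H67.CX Pool.Agent.D0H87.CX.Rec Pool.Agent.D0H9.CX Pool.Agent.D0H9.CX.Pow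
open Pool.Agent.D0H67.TS

namespace Pown

variable {K : Type} [Field K] {σ J : Type}

/-- the jets with the leading coefficients `c y` in degree `a` -/
def JC (g : J → MvPolynomial σ K) (p : Pt K σ) (y : J → AlgebraicClosure K) (a N : ℕ)
    (c : AlgebraicClosure K) : Set (Pt K (σ × Fin (N + 1))) :=
  {z | (∀ i, z (i, 0) = p i) ∧
    (∀ j, ∀ k < a, PowerSeries.coeff k (aeval (ar z) (g j)) = 0) ∧
    ∀ j, PowerSeries.coeff a (aeval (ar z) (g j)) = c * y j}

theorem jc_pow (g : J → MvPolynomial σ K) {m : ℕ} (hm : 0 < m) (p : Pt K σ)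
    (y : J → AlgebraicClosure K) (hy : y ≠ 0) (a : ℕ) {L : ℕ} (z : Pt K (σ × Fin (L + 1)))
    (Q : AlgebraicClosure K → Prop) :
    (∃ c, c ≠ 0 ∧ z ∈ JC (powG g m) p (fun q => ∏ k, y (q k)) (m * a) L c ∧ Q c) ↔
      ∃ c, c ≠ 0 ∧ z ∈ JC g p y a L c ∧ Q (c ^ m) := by
  constructor
  · rintro ⟨c, hc, ⟨h0, h1, h2⟩, hQ⟩
    have hE : z ∈ JE (powG g m) p (fun q => ∏ k, y (q k)) (m * a) L := ⟨h0, h1, c, hc, h2⟩
    rw [mem_powE g hm p y hy a z] at hE
    obtain ⟨h0', h1', e, he, h3⟩ := hE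
    obtain ⟨j₀, hj₀⟩ := Function.ne_iff.1 hy
    have hj0 : y j₀ ≠ 0 := hj₀
    have h4 : PowerSeries.coeff (m * a) (aeval (ar z) (powG g m fun _ => j₀)) =
      c * ∏ _k : Fin m, y j₀ := h2 fun _ => j₀
    rw [aeval_pow, (coeff_prod a (fun _ : Fin m => aeval (ar z) (g j₀)) (fun _ => h1' j₀)).2,
      Finset.prod_const, Finset.prod_const, Finset.card_univ, Fintype.card_fin, h3 j₀, mul_pow] at h4
    have h5 : e ^ m = c := mul_right_cancel₀ (pow_ne_zero m hj0) h4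
    exact ⟨e, he, ⟨h0', h1', h3⟩, by rw [h5]; exact hQ⟩
  · rintro ⟨c, hc, ⟨h0, h1, h2⟩, hQ⟩
    refine ⟨c ^ m, pow_ne_zero _ hc, ⟨h0, fun q k hk => ?_, fun q => ?_⟩, hQ⟩
    · rw [aeval_pow]
      exact (coeff_prod a (fun k : Fin m => aeval (ar z) (g (q k))) (fun k => h1 (q k))).1 k hk
    · rw [aeval_pow,
        (coeff_prod a (fun k : Fin m => aeval (ar z) (g (q k))) (fun k => h1 (q k))).2]
      rw [Finset.prod_congr rfl fun k _ => h2 (q k), Finset.prod_mul_distrib, Finset.prod_const,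
        Finset.card_univ, Fintype.card_fin]

theorem jc_iff (g : J → MvPolynomial σ K) (p : Pt K σ) (y : J → AlgebraicClosure K) (a l : ℕ)
    (c : AlgebraicClosure K) (z : Pt K (σ × Fin (a + l + 1))) :
    z ∈ JC g p y a (a + l) c ↔
      (fun i => z (eq (σ := σ) (m := a) (l := l) (Sum.inl i))) ∈ JetC g p y a c := by
  have h1 : ∀ j, ∀ k ≤ a, PowerSeries.coeff k (aeval (ar z) (g j)) = PowerSeries.coeff k
      (aeval (ar fun i => z (eq (σ := σ) (m := a) (l := l) (Sum.inl i))) (g j)) := by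
    intro j
    refine coeff_congr a _ _ (fun i k hk => ?_) (g j)
    rw [coeff_ar, coeff_ar, dif_pos (by omega), dif_pos (by omega)]
    congr 1
  unfold JC JetC
  simp only [Set.mem_ofPred_eq]
  refine and_congr ?_ (and_congr ?_ ?_)
  · refine forall_congr' fun i => ?_
    have h2 : z (i, 0) = z (eq (m := a) (l := l) (Sum.inl (i, 0))) := by
      congr 1
    rw [h2]
  · exact forall_congr' fun j => forall₂_congr fun k hk => by rw [h1 j k hk.le]
  · refine forall_congr' fun j => ?_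
    rw [h1 j a le_rfl]

/-- the equivalence of the coordinates -/
def eqr (ρ : Type) {m l : ℕ} :
    (ρ ⊕ (σ × Fin (m + 1))) ⊕ (σ × Fin l) ≃ ρ ⊕ (σ × Fin (m + l + 1)) :=
  (Equiv.sumAssoc _ _ _).trans (Equiv.sumCongr (Equiv.refl ρ) (eq (σ := σ) (m := m) (l := l)))

/-- the pairs `(r, z)` with `z` of level `N` -/
def LCc (g : J → MvPolynomial σ K) (p : Pt K σ) (y : J → AlgebraicClosure K) {ρ : Type} (a N : ℕ)
    (Φ : Set (Pt K (ρ ⊕ Unit))) : Set (Pt K (ρ ⊕ (σ × Fin (N + 1)))) :=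
  {x | ∃ c : AlgebraicClosure K, c ≠ 0 ∧ (fun q => x (Sum.inr q)) ∈ JC g p y a N c ∧
    (Sum.elim (fun r => x (Sum.inl r)) fun _ => c : Pt K (ρ ⊕ Unit)) ∈ Φ}

theorem lc_iff (g : J → MvPolynomial σ K) (p : Pt K σ) (y : J → AlgebraicClosure K) {ρ : Type}
    (a l : ℕ) (Φ : Set (Pt K (ρ ⊕ Unit))) (x : Pt K (ρ ⊕ (σ × Fin (a + l + 1)))) :
    x ∈ LCc g p y a (a + l) Φ ↔
      (fun i => x (eqr (σ := σ) ρ (m := a) (l := l) (Sum.inl i))) ∈ LS g p y a Φ := by
  unfold LCc LS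
  simp only [Set.mem_ofPred_eq]
  refine exists_congr fun c => and_congr_right fun _ => ?_
  refine and_congr ?_ Iff.rfl
  exact jc_iff g p y a l c fun q => x (Sum.inr q)

theorem constr_LC (g : J → MvPolynomial σ K) (p : Pt K σ) (y : J → AlgebraicClosure K) {ρ : Type}
    (a l : ℕ) (Φ : Set (Pt K (ρ ⊕ Unit))) (h : Constr (LS g p y a Φ)) : Constr (LCc g p y a (a + l) Φ) := by
  have h1 := h.preimage (fun (x : Pt K (ρ ⊕ (σ × Fin (a + l + 1)))) i =>
    x (eqr (σ := σ) ρ (m := a) (l := l) (Sum.inl i))) fun i => IsPF.coord _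
  have h2 : LCc g p y a (a + l) Φ = {x : Pt K (ρ ⊕ (σ × Fin (a + l + 1))) |
      (fun i => x (eqr (σ := σ) ρ (m := a) (l := l) (Sum.inl i))) ∈ LS g p y a Φ} :=
    Set.ext (lc_iff g p y a l Φ)
  rw [h2]
  exact h1

end Pown

open Pown in
/-- **POWN.** -/
theorem t_POWN : S_POWN := by
  intro σ J _ _ g m hm p y M₀ k hn
  obtain ⟨hy, hM₀, hk, ⟨N₀, hN₀, z₀, hz₀⟩, hE⟩ := hn
  have hyF0 : aP y ≠ 0 := by
    intro h1
    apply hy
    funext j
    have h2 : algebraMap ℂ (AlgebraicClosure ℂ) (y j) = 0 := congrFun h1 j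
    exact (map_eq_zero _).1 h2
  have hprod : aP (fun q : Fin m → J => ∏ k, y (q k)) = fun q => ∏ k, aP y (q k) := by
    funext q
    unfold aP
    rw [map_prod]
  have hJ : ∀ N, JetE g (aP p) (aP y) N = JE g (aP p) (aP y) N N := fun N => rfl
  have hJp : ∀ N, JetE (powG g m) (aP p) (fun q => ∏ k, aP y (q k)) N =
      JE (powG g m) (aP p) (fun q => ∏ k, aP y (q k)) N N := fun N => rfl
  have hle : ∀ a : ℕ, a ≤ m * a := fun a => Nat.le_mul_of_pos_left a hm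
  refine ⟨?_, Nat.mul_pos hm hM₀, hk, ⟨m * N₀, Nat.mul_pos hm hN₀, ?_⟩, fun N hN =>
    ⟨fun hd => ?_, fun hd => ?_⟩⟩
  · obtain ⟨j, hj⟩ := Function.ne_iff.1 hy
    intro h
    have h1 : (fun q : Fin m → J => ∏ k, y (q k)) (fun _ => j) = 0 := by rw [h]; rfl
    have h2 : ∏ _k : Fin m, y j = 0 := h1
    rw [Finset.prod_eq_zero_iff] at h2
    obtain ⟨_, _, h3⟩ := h2
    exact hj h3
  · rw [hprod, hJp]
    obtain ⟨l, hl⟩ : ∃ l, m * N₀ = N₀ + l := ⟨m * N₀ - N₀, by have := hle N₀; omega⟩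
    have h1 : ∀ N', N' = N₀ + l → (JE g (aP p) (aP y) N₀ N').Nonempty := by
      rintro N' rfl
      refine ⟨fun q => Sum.elim z₀ (fun _ => 0) ((eq (σ := σ) (m := N₀) (l := l)).symm q), ?_⟩
      rw [je_iff]
      have h2 : (fun i => Sum.elim z₀ (fun _ => 0)
          ((eq (σ := σ) (m := N₀) (l := l)).symm (eq (Sum.inl i)))) = z₀ := by
        funext i
        rw [Equiv.symm_apply_apply]
        rfl
      rw [h2]
      exact hz₀
    obtain ⟨z, hz⟩ := h1 _ hl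
    exact ⟨z, (mem_powE g hm (aP p) (aP y) hyF0 N₀ z).2 hz⟩
  · obtain ⟨a, ha⟩ : m ∣ N := (dvd_mul_right m M₀).trans hd
    have ha0 : 0 < a := by
      rcases Nat.eq_zero_or_pos a with h0 | h0
      · rw [ha, h0, mul_zero] at hN
        exact absurd hN (lt_irrefl _)
      · exact h0
    have hMa : M₀ ∣ a := by
      rw [ha] at hd
      exact (Nat.mul_dvd_mul_iff_left hm).1 hd
    obtain ⟨m', hm'⟩ := (hE a ha0).1 hMa
    obtain ⟨l, hl⟩ : ∃ l, N = a + l := ⟨N - a, by have := hle a; omega⟩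
    refine ⟨m' + Fintype.card σ * l, fun {ρ} _ Φ hΦ => ?_⟩
    rw [hprod]
    set Φ' : Set (Pt ℂ (ρ ⊕ Unit)) :=
      {x | (Sum.elim (fun r => x (Sum.inl r)) fun _ => x (Sum.inr ()) ^ m : Pt ℂ (ρ ⊕ Unit)) ∈ Φ} with hΦ'
    have hΦ'c : Constr Φ' := by
      refine hΦ.preimage (fun x : Pt ℂ (ρ ⊕ Unit) =>
        (Sum.elim (fun r => x (Sum.inl r)) fun _ => x (Sum.inr ()) ^ m : Pt ℂ (ρ ⊕ Unit))) ?_
      rintro (i | i)
      · exact IsPF.coord _
      · exact (IsPF.coord _).pow _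
    obtain ⟨hc, hχ⟩ := hm' Φ' hΦ'c
    have hLS : LS (powG g m) (aP p) (fun q => ∏ k, aP y (q k)) N Φ = LCc g (aP p) (aP y) a N Φ' := by
      ext x
      unfold LS LCc
      simp only [Set.mem_ofPred_eq]
      have h1 := jc_pow g hm (aP p) (aP y) hyF0 a (L := N) (fun q => x (Sum.inr q))
        (fun c => (Sum.elim (fun r => x (Sum.inl r)) fun _ => c : Pt ℂ (ρ ⊕ Unit)) ∈ Φ)
      rw [← ha] at h1
      exact h1
    have hRS : RS (m * M₀) Φ = RS M₀ Φ' := by
      ext x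
      change (x (Sum.inr ()) ≠ 0 ∧ (Sum.elim (fun r => x (Sum.inl r))
          fun _ => x (Sum.inr ()) ^ (m * M₀) : Pt ℂ (ρ ⊕ Unit)) ∈ Φ) ↔
        (x (Sum.inr ()) ≠ 0 ∧ (Sum.elim (fun r => x (Sum.inl r))
          fun _ => (x (Sum.inr ()) ^ M₀) ^ m : Pt ℂ (ρ ⊕ Unit)) ∈ Φ)
      rw [← pow_mul, mul_comm M₀ m]
    rw [hLS, hRS]
    clear_value Φ'
    clear hLS
    subst hl
    refine ⟨constr_LC g (aP p) (aP y) a l Φ' hc, fun {R} _ M v hv => ?_⟩
    have h2 := chi_split M (eqr (σ := σ) ρ (m := a) (l := l)) (LCc g (aP p) (aP y) a (a + l) Φ')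
      (LS g (aP p) (aP y) a Φ') hc (lc_iff g (aP p) (aP y) a l Φ')
    rw [h2, hχ M v hv, Fintype.card_prod, Fintype.card_fin, pow_add, mul_assoc]
  · rw [hprod, hJp]
    by_cases hmN : m ∣ N
    · obtain ⟨a, ha⟩ := hmN
      have ha0 : 0 < a := by
        rcases Nat.eq_zero_or_pos a with h0 | h0
        · rw [ha, h0, mul_zero] at hN
          exact absurd hN (lt_irrefl _)
        · exact h0
      have hMa : ¬ M₀ ∣ a := by
        intro h
        apply hd
        rw [ha]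
        exact Nat.mul_dvd_mul_left m h
      have h1 := (hE a ha0).2 hMa
      obtain ⟨l, hl⟩ : ∃ l, N = a + l := ⟨N - a, by have := hle a; omega⟩
      have h2 : JE g (aP p) (aP y) a N = ∅ := by
        subst hl
        rw [Set.eq_empty_iff_forall_notMem]
        intro z hz
        rw [je_iff] at hz
        have h3 : (fun i => z (eq (σ := σ) (m := a) (l := l) (Sum.inl i))) ∈
            JetE g (aP p) (aP y) a := hz
        rw [h1] at h3
        exact h3
      rw [Set.eq_empty_iff_forall_notMem] at h2 ⊢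
      intro z hz
      have h3 : z ∈ JE (powG g m) (aP p) (fun q => ∏ k, aP y (q k)) (m * a) N := by
        rw [← ha]
        exact hz
      exact h2 z ((mem_powE g hm (aP p) (aP y) hyF0 a z).1 h3)
    · exact powE_empty g hm (aP p) (aP y) hyF0 hmN

end Pool.Agent.D0H22.TS
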