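import Pool.Agent.D0H67.TS.Stm
import Pool.Agent.D0H35.CX.Scale2

/-! # TS: SCALEN (after helper35's module Scale2) -/

set_option autoImplicit false
set_option linter.unusedSectionVars false
set_option linter.unusedVariables false

namespace Pool.Agent.D0H22.TS

open MvPolynomial Pool.Agent.W428.MOT Pool.Agent.TH192.MT Pool.Agent.D0H67.SUB
open Pool.Agent.D0H67.CX Pool.Agent.D0H35.CX Pool.Agent.D0H35.CX.Scale2 Pool.Agent.D0H67.TS

namespace Scalen

theorem mc_inv {κ : Type} {a : κ → ℂ} (ha : ∀ i, a i ≠ 0) (z : Pt ℂ κ) :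
    mc (fun i => (a i)⁻¹) (mc a z) = z := by
  funext i
  unfold mc
  rw [← mul_assoc, ← map_mul, inv_mul_cancel₀ (ha i), map_one, one_mul]

theorem mc_inv' {κ : Type} {a : κ → ℂ} (ha : ∀ i, a i ≠ 0) (z : Pt ℂ κ) :
    mc a (mc (fun i => (a i)⁻¹) z) = z := by
  funext i
  unfold mc
  rw [← mul_assoc, ← map_mul, mul_inv_cancel₀ (ha i), map_one, one_mul]

theorem constr_mc {κ : Type} {a : κ → ℂ} (ha : ∀ i, a i ≠ 0) (S T : Set (Pt ℂ κ))
    (h : ∀ z, z ∈ S ↔ mc a z ∈ T) (hS : Constr S) : Constr T := by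
  have := hS.preimage (fun z : Pt ℂ κ => mc (fun i => (a i)⁻¹) z) (pf_mc _)
  have h3 : T = {z : Pt ℂ κ | mc (fun i => (a i)⁻¹) z ∈ S} := by
    ext z
    rw [Set.mem_ofPred_eq, h, mc_inv' ha]
  rwa [← h3] at this

theorem chi_mc {R : Type} [CommRing R] (M : Meas ℂ R) {κ : Type} [Fintype κ] {a : κ → ℂ}
    (ha : ∀ i, a i ≠ 0) (S T : Set (Pt ℂ κ)) (h : ∀ z, z ∈ S ↔ mc a z ∈ T) (hS : Constr S) :
    M.χ κ S = M.χ κ T := by
  refine M.iso S T hS (constr_mc ha S T h hS) (fun z => mc a z)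
    (fun z => mc (fun i => (a i)⁻¹) z) (regularOn_poly (pf_mc a) _)
    (regularOn_poly (pf_mc _) _) ?_ ?_ ?_ ?_
  · intro z hz
    exact (h z).1 hz
  · intro z hz
    change _ ∈ S
    rw [h, mc_inv' ha]
    exact hz
  · intro z _
    exact mc_inv ha z
  · intro z _
    exact mc_inv' ha z

variable {σ : Type}

theorem jetC {J : Type} {g : J → MvPolynomial σ ℂ} {w : σ → ℕ} {d : ℕ}
    (hg : ∀ j, (g j).IsWeightedHomogeneous w d) {a : ℂ} (ha : a ≠ 0) (p : Pt ℂ σ)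
    (y : J → AlgebraicClosure ℂ) (N : ℕ) (z : Pt ℂ (σ × Fin (N + 1))) (c : AlgebraicClosure ℂ) :
    z ∈ JetC g p y N c ↔ mc (fun q : σ × Fin (N + 1) => a ^ w q.1) z ∈
      JetC g (mc (fun i => a ^ w i) p) y N (algebraMap ℂ (AlgebraicClosure ℂ) a ^ d * c) := by
  have hα : algebraMap ℂ (AlgebraicClosure ℂ) a ≠ 0 := by
    rw [Ne, map_eq_zero]
    exact ha
  have hd : algebraMap ℂ (AlgebraicClosure ℂ) a ^ d ≠ 0 := pow_ne_zero _ hα
  refine and_congr ?_ (and_congr ?_ ?_)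
  · refine forall_congr' fun i => ?_
    have h1 : algebraMap ℂ (AlgebraicClosure ℂ) (a ^ w i) ≠ 0 := by
      rw [map_pow]
      exact pow_ne_zero _ hα
    change _ ↔ algebraMap ℂ (AlgebraicClosure ℂ) (a ^ w i) * z (i, 0) =
      algebraMap ℂ (AlgebraicClosure ℂ) (a ^ w i) * p i
    exact (mul_right_inj' h1).symm
  · refine forall_congr' fun j => forall₂_congr fun k _ => ?_
    rw [coeff_mc w a z (hg j) k, mul_eq_zero, or_iff_right hd]
  · refine forall_congr' fun j => ?_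
    rw [coeff_mc w a z (hg j), mul_assoc]
    exact (mul_right_inj' hd).symm

end Scalen

open Scalen in
/-- **SCALEN.** -/
theorem t_SCALEN : S_SCALEN := by
  intro σ J _ _ g w d hg a ha p y M₀ k hb
  obtain ⟨h1, hM₀, hk, h2, h3⟩ := hb
  have hα : algebraMap ℂ (AlgebraicClosure ℂ) a ≠ 0 := by
    rw [Ne, map_eq_zero]
    exact ha
  have hp : aP (fun i => a ^ w i * p i) = mc (fun i => a ^ w i) (aP p) := by
    funext i
    unfold mc aP
    rw [map_mul]
  have hA : ∀ N, ∀ q : σ × Fin (N + 1), a ^ w q.1 ≠ 0 := fun N q => pow_ne_zero _ ha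
  refine ⟨h1, hM₀, hk, ?_, fun N hN => ⟨fun hd => ?_, fun hd => ?_⟩⟩
  · obtain ⟨N, hN, z, hz⟩ := h2
    refine ⟨N, hN, mc (fun q : σ × Fin (N + 1) => a ^ w q.1) z, ?_⟩
    rw [hp]
    exact (jetE hg ha _ _ N z).1 hz
  · obtain ⟨m, hm⟩ := (h3 N hN).1 hd
    refine ⟨m, fun {ρ} _ Φ hΦ => ?_⟩
    obtain ⟨b, hb⟩ := IsAlgClosed.exists_pow_nat_eq (a ^ d) hM₀
    have hb0 : b ≠ 0 := by
      rintro rfl
      rw [zero_pow hM₀.ne'] at hb
      exact pow_ne_zero d ha hb.symm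
    set Φ' : Set (Pt ℂ (ρ ⊕ Unit)) :=
      {x | mc (Sum.elim (fun _ => 1) fun _ => a ^ d) x ∈ Φ} with hΦ'
    have hΦ'c : Constr Φ' := hΦ.preimage _ (pf_mc _)
    have helim : ∀ (r : ρ → AlgebraicClosure ℂ) (c : AlgebraicClosure ℂ) (e : ℂ),
        mc (Sum.elim (fun _ : ρ => (1 : ℂ)) fun _ : Unit => e) (Sum.elim r fun _ => c : Pt ℂ (ρ ⊕ Unit)) =
          Sum.elim r fun _ => algebraMap ℂ (AlgebraicClosure ℂ) e * c := by
      intro r c e
      funext i
      rcases i with i | i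
      · change algebraMap ℂ (AlgebraicClosure ℂ) 1 * r i = r i
        rw [map_one, one_mul]
      · rfl
    obtain ⟨hc, hχ⟩ := hm Φ' hΦ'c
    set A : ρ ⊕ (σ × Fin (N + 1)) → ℂ := Sum.elim (fun _ => 1) fun q => a ^ w q.1 with hAdef
    have hA0 : ∀ i, A i ≠ 0 := by
      rintro (i | i)
      · exact one_ne_zero
      · exact pow_ne_zero _ ha
    have hLS : ∀ x : Pt ℂ (ρ ⊕ (σ × Fin (N + 1))), x ∈ LS g (aP p) (aP y) N Φ' ↔
        mc A x ∈ LS g (aP (fun i => a ^ w i * p i)) (aP y) N Φ := by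
      intro x
      have e1 : (fun q => mc A x (Sum.inr q)) =
          mc (fun q : σ × Fin (N + 1) => a ^ w q.1) fun q => x (Sum.inr q) := rfl
      have e2 : (fun r => mc A x (Sum.inl r)) = fun r => x (Sum.inl r) := by
        funext r
        change algebraMap ℂ (AlgebraicClosure ℂ) 1 * x (Sum.inl r) = _
        rw [map_one, one_mul]
      constructor
      · rintro ⟨c, hc0, hz, hcΦ⟩
        refine ⟨algebraMap ℂ (AlgebraicClosure ℂ) a ^ d * c, mul_ne_zero (pow_ne_zero _ hα) hc0, ?_, ?_⟩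
        · rw [e1, hp]
          exact (jetC hg ha _ _ N _ c).1 hz
        · rw [e2]
          rw [hΦ', Set.mem_ofPred_eq, helim, map_pow] at hcΦ
          exact hcΦ
      · rintro ⟨c, hc0, hz, hcΦ⟩
        rw [e1, hp] at hz
        rw [e2] at hcΦ
        refine ⟨(algebraMap ℂ (AlgebraicClosure ℂ) a ^ d)⁻¹ * c,
          mul_ne_zero (inv_ne_zero (pow_ne_zero _ hα)) hc0, ?_, ?_⟩
        · rw [jetC hg ha, mul_inv_cancel_left₀ (pow_ne_zero _ hα)]
          exact hz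
        · rw [hΦ', Set.mem_ofPred_eq, helim, map_pow, mul_inv_cancel_left₀ (pow_ne_zero _ hα)]
          exact hcΦ
    refine ⟨constr_mc hA0 _ _ hLS hc, fun {R} _ M v hv => ?_⟩
    rw [← chi_mc M hA0 _ _ hLS hc, hχ M v hv]
    congr 2
    have hRS : ∀ x : Pt ℂ (ρ ⊕ Unit), x ∈ RS M₀ Φ' ↔
        mc (Sum.elim (fun _ => 1) fun _ => b) x ∈ RS M₀ Φ := by
      intro x
      have e0 : mc (Sum.elim (fun _ => 1) fun _ => b) x (Sum.inr ()) =
          algebraMap ℂ (AlgebraicClosure ℂ) b * x (Sum.inr ()) := rfl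
      have e2 : (fun r => mc (Sum.elim (fun _ => 1) fun _ => b) x (Sum.inl r)) =
          fun r : ρ => x (Sum.inl r) := by
        funext r
        change algebraMap ℂ (AlgebraicClosure ℂ) 1 * x (Sum.inl r) = _
        rw [map_one, one_mul]
      have hβ : algebraMap ℂ (AlgebraicClosure ℂ) b ≠ 0 := by
        rw [Ne, map_eq_zero]
        exact hb0
      change (x (Sum.inr ()) ≠ 0 ∧ mc (Sum.elim (fun _ => 1) fun _ => a ^ d)
        (Sum.elim (fun r => x (Sum.inl r)) fun _ => x (Sum.inr ()) ^ M₀ : Pt ℂ (ρ ⊕ Unit)) ∈ Φ) ↔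
        (mc (Sum.elim (fun _ => 1) fun _ => b) x (Sum.inr ()) ≠ 0 ∧
          (Sum.elim (fun r => mc (Sum.elim (fun _ => 1) fun _ => b) x (Sum.inl r))
            fun _ => mc (Sum.elim (fun _ => 1) fun _ => b) x (Sum.inr ()) ^ M₀ : Pt ℂ (ρ ⊕ Unit)) ∈ Φ)
      rw [e0, e2, helim, mul_pow, ← map_pow, hb, mul_ne_zero_iff_left hβ]
    refine chi_mc M (a := Sum.elim (fun _ => 1) fun _ => b) ?_ _ _ hRS ?_
    · rintro (i | i)
      · exact one_ne_zero
      · exact hb0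
    · unfold RS
      refine Constr.and (Constr.ne (IsPF.coord _) IsPF.zero) ?_
      refine hΦ'c.preimage (fun x : Pt ℂ (ρ ⊕ Unit) =>
        (Sum.elim (fun r => x (Sum.inl r)) fun _ => x (Sum.inr ()) ^ M₀ : Pt ℂ (ρ ⊕ Unit))) ?_
      rintro (i | i)
      · exact IsPF.coord _
      · exact (IsPF.coord _).pow _
  · have h4 := (h3 N hN).2 hd
    rw [Set.eq_empty_iff_forall_notMem] at h4 ⊢
    intro z hz
    refine h4 (mc (fun q : σ × Fin (N + 1) => (a ^ w q.1)⁻¹) z) ?_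
    rw [jetE hg ha, mc_inv' (hA N), ← hp]
    exact hz

end Pool.Agent.D0H22.TS
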